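import Pool.Agent.H.MP_c9945a_an.Final

/-!
# The quasi-proper map `θ_ξ = (ξ - ϑ) / (1 - ξ̄ ϑ)` is irreducible

Full positive answer to the question. Outline of the proof: if `θ_ξ = θ₁ θ₂`, write
`θ₁ = a ∘ φ + (b ∘ φ) ϑ` and `θ₂ = c ∘ φ + (d ∘ φ) ϑ`. The product of the norms is the Blaschke
product `β = (ξ² - B) / (1 - ξ̄² B)`, so that the norms are close to `1` near the boundary in the
mean; comparing the two coefficients of the product of `θ₁` and `θ₂` with those of `θ_ξ` on circles
shows that `b d` is identically zero. Thus one of the factors is invariant under the sheet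
interchange; as the zero sets of `θ_ξ` and of `θ_ξ ∘ σ` are disjoint this factor has no zeros, and a
zero-free factor of a Blaschke product bounded by one is a unimodular constant, a contradiction.
-/

set_option autoImplicit false

namespace Pool.Agent.Results.MP_c9945a_an.ThetaXiIrreducible

open Complex Set Filter Topology
open scoped Manifold ContDiff ComplexConjugate
open Pool.Agent.H.MP_c9945a_an

/-- Let `X` be a connected Riemann surface and `φ : X → 𝔻` a proper holomorphic map with exactly two
zeros counting multiplicity, with sheet interchange `σ`, such that `dφ` has infinitely many zeros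
and the critical values satisfy the Blaschke condition. Let `B` be a Blaschke product whose zeros
`a i` are all simple and are exactly the critical values, let `t` be a holomorphic function with
`t² = B ∘ φ` and let `0 < |ξ| < 1` be such that `(ξ² - B) / (1 - ξ̄² B)` is a Blaschke product. Then
`(ξ - t) / (1 - ξ̄ t)` is an irreducible quasi-proper map. -/
theorem result {X : Type} [TopologicalSpace X] [T2Space X] [ChartedSpace ℂ X]
    [IsManifold 𝓘(ℂ) ω X] [ConnectedSpace X]
    (φ : X → ℂ) (σ : X → X) (h : TwoSheeted φ σ)
    (hinf : {x | IsCrit φ x}.Infinite)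
    (hsum : Summable fun x : {x | IsCrit φ x} => 1 - ‖φ x‖)
    (B : ℂ → ℂ) {ι : Type} (a : ι → ℂ) (hB : IsBlaschkeWith a B) (ha : Function.Injective a)
    (hcrit : range a = φ '' {x | IsCrit φ x})
    (t : X → ℂ) (ht : Hol t) (ht2 : ∀ x, t x ^ 2 = B (φ x))
    (ξ : ℂ) (hξ0 : 0 < ‖ξ‖) (hξ1 : ‖ξ‖ < 1)
    (hβ : IsBlaschke (fun z => (ξ ^ 2 - B z) / (1 - conj ξ ^ 2 * B z))) :
    Irred (fun x => (ξ - t x) / (1 - conj ξ * t x)) :=
  main φ σ h hinf hsum B a hB ha hcrit t ht ht2 ξ hξ0 hξ1 hβ

end Pool.Agent.Results.MP_c9945a_an.ThetaXiIrreducible
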